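import Pool.Agent.H717.PR.Stm

set_option autoImplicit false

/-!
PR717 QQ: adjacency inside gadgets.
-/

namespace Pool.Agent.H152.PR

open Pool.Agent.H717.PR

theorem adj_iff (k l : ℕ) (a b : Lb × Lb) (hk5 : k ≠ 5) (hl0 : l ≠ 0) (hl5 : l ≠ 5) :
    adj (k, a) (l, b) = true ↔
      ((k = 1 ∨ k = 3 ∨ k = 6 ∨ k = 8 ∨ k = 10 ∨ k = 12) ∧ l = k + 1 ∧ b = a) := by
  have ek : decide (k = 5) = false := by
    rw [decide_eq_false_iff_not]
    exact hk5
  unfold adj
  simp only [ek, Bool.false_and, Bool.false_or,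
    Bool.and_eq_true, Bool.or_eq_true, decide_eq_true_eq, Prod.mk.injEq, hl0, hl5, false_and,
    or_self, and_false, false_or]

theorem t_qq : S_qq := by
  rintro ⟨k, a⟩ ⟨l, b⟩ hk hl hk0 hk5 hl0 hl5 hne
  simp only at hk hl hk0 hk5 hl0 hl5
  rw [adj_iff k l a b hk5 hl0 hl5, adj_iff l k b a hl5 hk0 hk5]
  show _ ↔ (stemNo k = stemNo l ∧ a = b)
  by_cases hab : a = b
  · subst hab
    have hkl : k ≠ l := fun h => hne (by rw [h])
    simp only [and_true]
    clear hne
    interval_cases k <;> interval_cases l <;> simp_all [stemNo]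
  · have hba : ¬ b = a := fun h => hab h.symm
    simp only [hab, hba, and_false, or_false]

end Pool.Agent.H152.PR
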